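import Pool.Agent.Y922.AP.Stm

/-! Lifts over bounded intervals are bounded. -/

set_option autoImplicit false

open Filter Topology Set

namespace Pool.Agent.Y484.AP

open Pool.Agent.Y922.AP

/-- a continuous logarithm of `1` is constant -/
theorem const_of_exp {S : Set ℝ} (hS : IsPreconnected S) {D : ℝ → ℂ} (hc : ContinuousOn D S)
    (h1 : ∀ x ∈ S, Complex.exp (D x) = 1) {x y : ℝ} (hx : x ∈ S) (hy : y ∈ S) : D x = D y := by
  have hn : ∀ t ∈ S, ∃ n : ℤ, D t = n * (2 * Real.pi * Complex.I) := fun t ht =>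
    Complex.exp_eq_one_iff.1 (h1 t ht)
  have him : ∀ n : ℤ, ((n : ℂ) * (2 * Real.pi * Complex.I)).im = n * (2 * Real.pi) := by
    intro n
    simp
  have hπ := Real.pi_pos
  have key : ∀ x ∈ S, ∀ y ∈ S, ¬ (D x).im < (D y).im := by
    intro x hx y hy hlt
    obtain ⟨n, hn1⟩ := hn x hx
    obtain ⟨m, hm1⟩ := hn y hy
    have e1 : (D x).im = n * (2 * Real.pi) := by rw [hn1, him]
    have e2 : (D y).im = m * (2 * Real.pi) := by rw [hm1, him]
    have hnm : (n : ℝ) < m := by
      rw [e1, e2] at hlt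
      exact lt_of_mul_lt_mul_right hlt (by positivity)
    have hnm1 : (n : ℝ) + 1 ≤ m := by
      have : n < m := by exact_mod_cast hnm
      exact_mod_cast this
    have hmem : ((n : ℝ) + 1 / 2) * (2 * Real.pi) ∈ Icc (D x).im (D y).im := by
      rw [e1, e2]
      exact ⟨mul_le_mul_of_nonneg_right (by linarith) (by positivity),
        mul_le_mul_of_nonneg_right (by linarith) (by positivity)⟩
    obtain ⟨z, hz, hze⟩ := hS.intermediate_value hx hy
      (Complex.continuous_im.comp_continuousOn hc) hmem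
    obtain ⟨k, hk⟩ := hn z hz
    simp only [Function.comp] at hze
    rw [hk, him] at hze
    have h2 := mul_right_cancel₀ (by positivity : (2 * Real.pi) ≠ 0) hze
    have h3 : (2 * k - 2 * n : ℤ) = 1 := by
      have : ((2 * k - 2 * n : ℤ) : ℝ) = 1 := by push_cast; linarith
      exact_mod_cast this
    omega
  have h4 : (D x).im = (D y).im := le_antisymm (not_lt.1 (key y hy x hx)) (not_lt.1 (key x hx y hy))
  obtain ⟨n, hn1⟩ := hn x hx
  obtain ⟨m, hm1⟩ := hn y hy
  rw [hn1, hm1, him, him] at h4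
  have h5 := mul_right_cancel₀ (by positivity : (2 * Real.pi) ≠ 0) h4
  have h6 : n = m := by exact_mod_cast h5
  rw [hn1, hm1, h6]

/-- lifts over bounded intervals are bounded -/
theorem t_BDD : S_BDD := by
  intro X lam a b I σ hX hL hlam hI hab hσ
  obtain ⟨m0, hm0⟩ := (isCompact_Icc (a := a) (b := b)).exists_bound_of_continuousOn
    hlam.continuousOn
  obtain ⟨m, hm⟩ : ∃ m : ℝ, ∀ x ∈ I, ‖lam x‖ ≤ m := ⟨m0, fun x hx => hm0 x (hab hx)⟩
  obtain ⟨ρ, ell, h1, h2, h3, -⟩ := hL (Real.exp (-m)) (Real.exp_pos _)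
  have hc : ∀ x ∈ I, Real.exp (-m) ≤ ‖X (σ x)‖ := by
    intro x hx
    rw [hσ.2 x hx, Complex.norm_exp, Real.exp_le_exp]
    have := Complex.abs_re_le_norm (lam x)
    have := neg_abs_le (lam x).re
    have := hm x hx
    linarith
  have hσc : ContinuousOn σ I := fun x hx => (hσ.1 x hx).continuousAt.continuousWithinAt
  -- the logarithm along the lift
  have key : ∀ x x' : ℝ, uIcc x x' ⊆ I → (∀ t ∈ uIcc x x', ρ ≤ ‖σ t‖) →
      ell (σ x) = lam x + (ell (σ x') - lam x') := by
    intro x x' hs hr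
    have hD : ContinuousOn (fun t => ell (σ t) - lam t) (uIcc x x') := by
      refine ContinuousOn.sub ?_ hlam.continuousOn
      exact h1.comp (hσc.mono hs) fun t ht => ⟨hr t ht, hc t (hs ht)⟩
    have := const_of_exp isPreconnected_uIcc hD (fun t ht => by
      rw [Complex.exp_sub, h2 _ (hr t ht) (hc t (hs ht)), hσ.2 t (hs ht),
        div_self (Complex.exp_ne_zero _)]) left_mem_uIcc right_mem_uIcc
    linear_combination this
  by_cases hall : ∀ x ∈ I, ρ ≤ ‖σ x‖
  · rcases I.eq_empty_or_nonempty with h0 | ⟨x0, hx0⟩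
    · exact ⟨0, fun x hx => by rw [h0] at hx; exact absurd hx (notMem_empty x)⟩
    · obtain ⟨ρ', hρ'⟩ := h3 (m + ‖ell (σ x0) - lam x0‖)
      refine ⟨ρ', fun x hx => hρ' _ (hall x hx) (hc x hx) ?_⟩
      have hs := hI.uIcc_subset hx hx0
      rw [key x x0 hs fun t ht => hall t (hs ht)]
      exact (norm_add_le _ _).trans (by linarith [hm x hx])
  · push Not at hall
    obtain ⟨x3, hx3, hx3'⟩ := hall
    -- the logarithm is bounded on the circle
    have hK : IsCompact {y : ℂ | ‖y‖ = ρ ∧ Real.exp (-m) ≤ ‖X y‖} := by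
      have h4 : IsCompact (Metric.sphere (0 : ℂ) ρ) := isCompact_sphere 0 ρ
      refine h4.of_isClosed_subset ?_ ?_
      · exact (isClosed_eq continuous_norm continuous_const).inter
          (isClosed_le continuous_const hX.continuous.norm)
      · intro y hy
        rw [mem_sphere_zero_iff_norm]
        exact hy.1
    obtain ⟨M1, hM1⟩ := hK.exists_bound_of_continuousOn
      (h1.mono fun y hy => ⟨hy.1.ge, hy.2⟩)
    obtain ⟨ρ', hρ'⟩ := h3 (m + (M1 + m))
    refine ⟨max ρ ρ', fun x1 hx1 => ?_⟩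
    by_cases hx1' : ‖σ x1‖ ≤ ρ
    · exact hx1'.trans (le_max_left _ _)
    · push Not at hx1'
      refine (hρ' _ hx1'.le (hc x1 hx1) ?_).trans (le_max_right _ _)
      have hs := hI.uIcc_subset hx1 hx3
      have hnc : ContinuousOn (fun t => ‖σ t‖) I := hσc.norm
      -- the first point on the circle
      have hSc : IsCompact (uIcc x1 x3 ∩ {t | ‖σ t‖ = ρ}) := by
        have h5 : IsClosed (uIcc x1 x3 ∩ (fun t => ‖σ t‖) ⁻¹' {ρ}) :=
          (hnc.mono hs).preimage_isClosed_of_isClosed isCompact_uIcc.isClosed isClosed_singleton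
        exact isCompact_uIcc.of_isClosed_subset h5 inter_subset_left
      have hSn : (uIcc x1 x3 ∩ {t | ‖σ t‖ = ρ}).Nonempty := by
        obtain ⟨t, ht, hte⟩ := intermediate_value_uIcc (hnc.mono hs)
          (show ρ ∈ uIcc (‖σ x1‖) (‖σ x3‖) from mem_uIcc.2 (Or.inr ⟨hx3'.le, hx1'.le⟩))
        exact ⟨t, ht, hte⟩
      obtain ⟨x2, ⟨hx2, hx2'⟩, hmin⟩ := hSc.exists_isMinOn hSn
        (f := fun t => |t - x1|) (by fun_prop)
      have hsub : uIcc x1 x2 ⊆ uIcc x1 x3 := uIcc_subset_uIcc left_mem_uIcc hx2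
      have hge : ∀ t ∈ uIcc x1 x2, ρ ≤ ‖σ t‖ := by
        intro t ht
        by_contra hlt
        push Not at hlt
        obtain ⟨u, hu, hue⟩ := intermediate_value_uIcc
          (hnc.mono ((uIcc_subset_uIcc left_mem_uIcc ht).trans (hsub.trans hs)))
          (show ρ ∈ uIcc (‖σ x1‖) (‖σ t‖) from mem_uIcc.2 (Or.inr ⟨hlt.le, hx1'.le⟩))
        have hut : uIcc x1 t ⊆ uIcc x1 x2 := uIcc_subset_uIcc left_mem_uIcc ht
        have h6 : |x2 - x1| ≤ |u - x1| := hmin ⟨hsub (hut hu), hue⟩
        have h7 : |u - x1| ≤ |t - x1| := abs_sub_left_of_mem_uIcc hu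
        have h8 : |t - x1| ≤ |x2 - x1| := abs_sub_left_of_mem_uIcc ht
        have h9 : |t - x1| = |x2 - x1| := le_antisymm h8 (h6.trans h7)
        have h10 : t = x2 := by
          rcases le_total x1 x2 with h | h
          · rw [uIcc_of_le h] at ht
            rw [abs_of_nonneg (by linarith [ht.1]), abs_of_nonneg (by linarith)] at h9
            linarith
          · rw [uIcc_of_ge h] at ht
            rw [abs_of_nonpos (by linarith [ht.2]), abs_of_nonpos (by linarith)] at h9
            linarith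
        rw [h10] at hlt
        exact hlt.ne hx2'
      rw [key x1 x2 (hsub.trans hs) hge]
      have h11 := hM1 (σ x2) ⟨hx2', hc x2 (hs hx2)⟩
      have h12 := hm x2 (hs hx2)
      have h13 := hm x1 hx1
      have h14 := norm_sub_le (ell (σ x2)) (lam x2)
      exact (norm_add_le _ _).trans (by linarith)

end Pool.Agent.Y484.AP
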